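import Pool.Agent.Helper76.PC.Stmts

/-!
# Deletion of an edge and the number of perfect matchings
-/

set_option autoImplicit false

namespace Pool.Agent.Helper76.PC

theorem de_ext (G H : Gr) (h1 : G.V = H.V) (h2 : ∀ x, G.N x = H.N x) : G = H := by
  have h3 : G.N = H.N := funext h2
  cases G
  cases H
  simp only at h1 h3
  subst h1
  subst h3
  rfl

theorem de_eq (G : Gr) (a b y : ℕ) :
    del (del (delE G a b) a) y = del (del G a) y := by
  apply de_ext
  · rfl
  · intro x
    by_cases hy : x = y
    · simp [del, hy]
    · by_cases ha : x = a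
      · simp [del, ha]
      · by_cases hb : x = b
        · subst hb
          simp [del, delE, hy, ha]
        · simp [del, delE, hy, ha, hb]

theorem st_DE (h : ST_EXP) : ST_DE := by
  intro G a b hb
  have ha : a ∈ G.V := G.mem a b hb
  have h1 := h G a ha
  have h2 := h (delE G a b) a ha
  have h3 : (delE G a b).N a = (G.N a).erase b := by
    simp [delE]
  rw [h3] at h2
  rw [h1, h2, ← Finset.sum_erase_add (G.N a) (fun y => P (del (del G a) y)) hb]
  congr 1
  refine Finset.sum_congr rfl fun y _ => ?_
  rw [de_eq]

end Pool.Agent.Helper76.PC
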